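import Pool.Agent.Results.MP_9056e9_nt.ShortArcs
import Pool.Agent.H771R3.EN.WEYL

namespace Pool.Agent.Results.MP_9056e9_nt.RandomDilates

open Pool.Agent.H771R3.EN

/-- There is an absolute constant `A` such that for all `0 < δ ≤ 1`, `N ≥ 1` and integers
`H ≥ e^(δ N)` the mean over `1 ≤ h ≤ H` of `|∑_{n ≤ N} exp(2πi h e^n)|²` is at most
`(A/δ) N^(2-δ²/1600)`. -/
theorem result : ∃ A : ℝ, 0 < A ∧ ∀ δ : ℝ, 0 < δ → δ ≤ 1 → ∀ N : ℕ, 1 ≤ N →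
    ∀ H : ℕ, Real.exp (δ * N) ≤ H →
    (∑ h ∈ Finset.Icc 1 H, ‖∑ n ∈ Finset.Icc 1 N,
      Complex.exp (2 * Real.pi * Complex.I * h * Real.exp n)‖ ^ 2) / H ≤
        A / δ * (N : ℝ) ^ (2 - δ ^ 2 / 1600) := by
  obtain ⟨A, hA, h⟩ := t_WEYL
    (t_ARC (t_WIN (t_CON (t_FORM t_INT t_SIZ t_PF t_EXP t_PRO)) t_VB t_PIG t_PAR))
  refine ⟨A, hA, fun δ h0 h1 N hN H hH => ?_⟩
  have hpos : (0 : ℝ) < H := lt_of_lt_of_le (Real.exp_pos _) hH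
  rw [div_le_iff₀ hpos]
  have := h δ h0 h1 N hN H hH
  calc _ ≤ A / δ * H * (N : ℝ) ^ (2 - δ ^ 2 / 1600) := this
    _ = _ := by ring

end Pool.Agent.Results.MP_9056e9_nt.RandomDilates
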