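import Pool.Agent.H771R3.EN.INT
import Pool.Agent.H771R3.EN.SIZ
import Pool.Agent.H771R3.EN.PF
import Pool.Agent.H771R3.EN.EXP
import Pool.Agent.H771R3.EN.PRO
import Pool.Agent.H771R3.EN.FORM
import Pool.Agent.H771R3.EN.CONT
import Pool.Agent.H771R3.EN.VB
import Pool.Agent.H771R3.EN.PIG
import Pool.Agent.H771R3.EN.PAR
import Pool.Agent.H771R3.EN.WIN
import Pool.Agent.H771R3.EN.ARC

namespace Pool.Agent.Results.MP_9056e9_nt.ShortArcs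

open Pool.Agent.H771R3.EN

/-- There is an absolute constant `A` such that for all `0 < δ ≤ 1`, `N ≥ 1` and real `θ` at most
`(A/δ) N^(1-δ²/400)` of the integers `1 ≤ n ≤ N` satisfy `‖e^n - θ‖ < e^(-δ n)` (distance to the
nearest integer). -/
theorem result : ∃ A : ℝ, 0 < A ∧ ∀ δ : ℝ, 0 < δ → δ ≤ 1 → ∀ N : ℕ, 1 ≤ N → ∀ θ : ℝ,
    ({n : ℕ | 1 ≤ n ∧ n ≤ N ∧ ∃ b : ℤ, |Real.exp n - θ - b| < Real.exp (-(δ * n))}.ncard : ℝ) ≤
      A / δ * (N : ℝ) ^ (1 - δ ^ 2 / 400) := by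
  classical
  obtain ⟨A, hA, h⟩ := t_ARC (t_WIN (t_CON (t_FORM t_INT t_SIZ t_PF t_EXP t_PRO)) t_VB t_PIG t_PAR)
  refine ⟨A, hA, fun δ h0 h1 N hN θ => ?_⟩
  have h2 := h δ h0 h1 N hN θ
  have e : {n : ℕ | 1 ≤ n ∧ n ≤ N ∧ ∃ b : ℤ, |Real.exp n - θ - b| < Real.exp (-(δ * n))} =
      (((Finset.Icc 1 N).filter (fun n : ℕ =>
        Near θ (Real.exp (-(δ * (n : ℝ)))) (Real.exp (n : ℝ)))) : Set ℕ) := by
    ext n
    simp [Near, and_assoc]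
  rw [e, Set.ncard_coe_finset]
  exact h2

end Pool.Agent.Results.MP_9056e9_nt.ShortArcs
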